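import Pool.Agent.L0h80.T4.Cl4

/-!
# Curves with a point of order 4: the count
-/

set_option autoImplicit false
set_option linter.unusedSectionVars false
set_option linter.unusedVariables false

namespace Pool.Agent.L0h80.T4

open Finset Pool.Agent.W262.RK Pool.Agent.L0h5.TF Pool.Agent.L0h5.TH Pool.Agent.L0h5.T4
  Pool.Agent.L0h5.TQ

/-- the lower bound for the densities -/
lemma lower4 {z : ℕ} (hz2 : 2 ≤ z) : ∃ C : ℝ, ∀ y : ℕ, 3 ≤ y → z < y →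
    ((3 : ℕ) : ℝ) * Real.log (Real.log y) - C ≤ ∑ p ∈ PS z y, (nu4 p : ℝ) / (p : ℝ) ^ 2 := by
  classical
  obtain ⟨C, hC⟩ := Pool.Agent.Helper256.KM.mertens_inv
  set Z : ℝ := ∑ p ∈ (Icc 1 z).filter Nat.Prime, (1 : ℝ) / p with hZ
  refine ⟨3 * (C + Z) + 2, fun y hy hzy => ?_⟩
  have h1 := (abs_le.1 (hC y hy)).1
  have h4 : ∑ p ∈ (Icc 1 y).filter Nat.Prime, (1 : ℝ) / p = Z + ∑ p ∈ PS z y, (1 : ℝ) / p := by
    rw [hZ, ← sum_union]
    · congr 1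
      ext p
      rw [mem_union, mem_filter, mem_filter, mem_Icc, mem_Icc, mem_PS]
      constructor
      · rintro ⟨⟨h1, h2⟩, h3⟩
        rcases le_or_gt p z with h4 | h4
        · exact Or.inl ⟨⟨h1, h4⟩, h3⟩
        · exact Or.inr ⟨⟨h4, h2⟩, h3⟩
      · rintro (⟨⟨h1, h2⟩, h3⟩ | ⟨⟨h1, h2⟩, h3⟩)
        · exact ⟨⟨h1, by omega⟩, h3⟩
        · exact ⟨⟨h3.one_lt.le, h2⟩, h3⟩
    · rw [disjoint_left]
      intro p hp hp'
      rw [mem_filter, mem_Icc] at hp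
      rw [mem_PS] at hp'
      omega
  have h2 : ∀ p ∈ PS z y, 3 * ((1 : ℝ) / p) - 2 * ((p : ℝ) ^ 2)⁻¹ ≤
      (nu4 p : ℝ) / (p : ℝ) ^ 2 := by
    intro p hp
    obtain ⟨⟨h3, h4⟩, h5⟩ := mem_PS.1 hp
    have hp1 : (1 : ℝ) < p := by exact_mod_cast h5.one_lt
    have hp0 : (0 : ℝ) < p := by linarith
    have h6 := nu4_ge h5 (by omega)
    have h7 : 3 * (p : ℝ) ≤ nu4 p + 2 := by exact_mod_cast h6
    have h9 : 3 * ((1 : ℝ) / p) - 2 * ((p : ℝ) ^ 2)⁻¹ = (3 * (p : ℝ) - 2) / (p : ℝ) ^ 2 := by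
      field_simp
    rw [h9]
    apply div_le_div_of_nonneg_right _ (by positivity)
    linarith
  have h3 : ∑ p ∈ PS z y, ((p : ℝ) ^ 2)⁻¹ ≤ 1 := by
    have h4 : ∑ p ∈ PS z y, ((p : ℝ) ^ 2)⁻¹ ≤ ∑ p ∈ Ioc z y, ((p : ℝ) ^ 2)⁻¹ := by
      apply sum_le_sum_of_subset_of_nonneg (filter_subset _ _)
      intro p _ _
      positivity
    have h5 := sum_Ioc_inv_sq_le_sub (α := ℝ) (k := z) (n := y) (by omega) hzy.le
    have h6 : ((z : ℝ))⁻¹ ≤ 1 := by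
      apply inv_le_one_of_one_le₀
      exact_mod_cast (by omega : 1 ≤ z)
    have h7 : (0 : ℝ) ≤ ((y : ℝ))⁻¹ := by positivity
    linarith
  have h5 := sum_le_sum h2
  rw [sum_sub_distrib, ← mul_sum, ← mul_sum] at h5
  push_cast
  linarith

/-- the count in a box -/
lemma box4 {z y X : ℕ} {x1 x2 : ℤ} {C : ℝ} (hz : 10 ≤ z) (hC : 0 ≤ C) (hzy : z < y)
    (hsv : SvQ2 Q4 z y X 4 3 x1 x2 C) {Y s v u : ℕ}
    (hs : s ∈ (PP z y).divisors) (hv' : v ∈ (PP z y).divisors) (hu : u ∈ (PP y Y).divisors)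
    (hsvu : (s * v * u) ^ 8 ≤ X) (hcop : s.Coprime v) (T : Finset (ℤ × ℤ))
    (hT : ∀ t ∈ T, x1 < t.1 ∧ t.1 ≤ x1 + X ∧ x2 < t.2 ∧ t.2 ≤ x2 + X ∧
      s1 z y (f4 t) = s ∧ s2 z y (f4 t) = v ∧ (u : ℤ) ∣ f4 t)
    (hst : ∀ t ∈ T, ∀ t' ∈ T, ∀ p ∈ s.primeFactors, st4 t p = st4 t' p) :
    (T.card : ℝ) ≤ C * (X : ℝ) ^ 2 * ((1 / 2) ^ s.primeFactors.card * gw 1 4 s) *
      ((4 : ℝ) ^ v.primeFactors.card * (gw 1 4 v / v)) *
      ((4 : ℝ) ^ u.primeFactors.card / u) / (Real.log y) ^ 3 := by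
  classical
  have hgs := gw_nonneg (c := 4) (by omega) hs
  have hgv := gw_nonneg (c := 4) (by omega) hv'
  have hlog : 0 ≤ (Real.log y) ^ 3 := pow_nonneg (Real.log_natCast_nonneg y) _
  rcases T.eq_empty_or_nonempty with hE | ⟨t0, ht0⟩
  · rw [hE, card_empty, Nat.cast_zero]
    positivity
  have hsz : ∀ p ∈ s.primeFactors, (z < p ∧ p ≤ y) ∧ p.Prime := fun p hp =>
    ⟨dv_prime hs (Nat.prime_of_mem_primeFactors hp) (Nat.dvd_of_mem_primeFactors hp),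
      Nat.prime_of_mem_primeFactors hp⟩
  have hvz : ∀ p ∈ v.primeFactors, (z < p ∧ p ≤ y) ∧ p.Prime := fun p hp =>
    ⟨dv_prime hv' (Nat.prime_of_mem_primeFactors hp) (Nat.dvd_of_mem_primeFactors hp),
      Nat.prime_of_mem_primeFactors hp⟩
  have huz : ∀ p ∈ u.primeFactors, (y < p ∧ p ≤ Y) ∧ p.Prime := fun p hp =>
    ⟨dv_prime hu (Nat.prime_of_mem_primeFactors hp) (Nat.dvd_of_mem_primeFactors hp),
      Nat.prime_of_mem_primeFactors hp⟩
  have evs : ∀ p ∈ v.primeFactors, p ∉ s.primeFactors := fun p hp h =>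
    (disjoint_left.1 hcop.disjoint_primeFactors h) hp
  have eus : ∀ p ∈ u.primeFactors, p ∉ s.primeFactors := fun p hp h => by
    have h1 := (huz p hp).1.1
    have h2 := (hsz p h).1.2
    omega
  have euv : ∀ p ∈ u.primeFactors, p ∉ v.primeFactors := fun p hp h => by
    have h1 := (huz p hp).1.1
    have h2 := (hvz p h).1.2
    omega
  -- residues
  have hres2 : ∀ (t : ℤ × ℤ) {p : ℕ}, p.Prime →
      (p : ℤ) ^ 2 ∣ t.1 - (rs t.1 (p ^ 2) : ℤ) ∧ (p : ℤ) ^ 2 ∣ t.2 - (rs t.2 (p ^ 2) : ℤ) := by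
    intro t p hp
    have hp2 : p ^ 2 ≠ 0 := pow_ne_zero _ hp.ne_zero
    have h1 := rs_dvd t.1 hp2
    have h2 := rs_dvd t.2 hp2
    push_cast at h1 h2
    exact ⟨h1, h2⟩
  have h := cnt2 hsv hC (by omega) hs hv' hu hsvu hcop
    (fun p => if p ∈ s.primeFactors then W4 (st4 t0 p) p
      else if p ∈ v.primeFactors then V4 p
      else (range p ×ˢ range p).filter (fun x : ℕ × ℕ => Q4 p (x.1 : ℤ) (x.2 : ℤ)))
    ?_ ?_ ?_ T ?_
  · refine h.trans (le_of_eq ?_)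
    push_cast
    rfl
  · intro p hp
    rw [if_pos hp]
    obtain ⟨⟨hz', -⟩, hpp⟩ := hsz p hp
    exact card_W4 hpp (by omega) _
  · intro p hp
    rw [if_neg (evs p hp), if_pos hp]
    obtain ⟨⟨hz', -⟩, hpp⟩ := hvz p hp
    exact card_V4 hpp (by omega)
  · intro p hp
    rw [if_neg (eus p hp), if_neg (euv p hp)]
    obtain ⟨⟨hz', -⟩, hpp⟩ := huz p hp
    have h1 := nu4_le hpp (by omega)
    unfold nu4 at h1
    refine h1.trans ?_
    omega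
  · intro t ht
    obtain ⟨h1, h2, h1', h2', h4, h5, h6⟩ := hT t ht
    refine ⟨h1, h2, h1', h2', ?_, ?_, ?_, ?_⟩
    · intro p hp
      have hpp := (hsz p hp).2
      rw [if_pos hp]
      have hp2 : p ^ 2 ≠ 0 := pow_ne_zero _ hpp.ne_zero
      obtain ⟨r1, r2⟩ := hres2 t hpp
      have h7 : p ∣ s1 z y (f4 t) := by
        rw [h4]
        exact Nat.dvd_of_mem_primeFactors hp
      obtain ⟨-, h8, h9⟩ := (dvd_s1 hpp).1 h7
      have hf : (p : ℤ) ^ 2 ∣ f4 t - f4 ((rs t.1 (p ^ 2) : ℤ), (rs t.2 (p ^ 2) : ℤ)) :=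
        f4_congr r1 r2
      unfold W4
      rw [mem_filter, mem_product, mem_range, mem_range]
      refine ⟨⟨rs_lt _ hp2, rs_lt _ hp2⟩, ?_, ?_, ?_⟩
      · exact (dvd_of_sub ((dvd_pow_self (p : ℤ) two_ne_zero).trans hf)).1 h8
      · exact fun h => h9 ((dvd_of_sub hf).2 h)
      · rw [← hst t ht t0 ht0 p hp]
        exact (st4_congr (t := t) (t' := ((rs t.1 (p ^ 2) : ℤ), (rs t.2 (p ^ 2) : ℤ)))
          hpp.ne_zero r1 r2).symm
    · intro p hp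
      have hpp := (hvz p hp).2
      rw [if_neg (evs p hp), if_pos hp]
      have hp2 : p ^ 2 ≠ 0 := pow_ne_zero _ hpp.ne_zero
      obtain ⟨r1, r2⟩ := hres2 t hpp
      have h7 : p ∣ s2 z y (f4 t) := by
        rw [h5]
        exact Nat.dvd_of_mem_primeFactors hp
      have h8 := ((dvd_s2 hpp).1 h7).2
      have hf : (p : ℤ) ^ 2 ∣ f4 t - f4 ((rs t.1 (p ^ 2) : ℤ), (rs t.2 (p ^ 2) : ℤ)) :=
        f4_congr r1 r2
      unfold V4
      rw [mem_filter, mem_product, mem_range, mem_range]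
      exact ⟨⟨rs_lt _ hp2, rs_lt _ hp2⟩, (dvd_of_sub hf).1 h8⟩
    · intro p hp
      have hpp := (huz p hp).2
      rw [if_neg (eus p hp), if_neg (euv p hp)]
      have h8 : (p : ℤ) ∣ f4 t :=
        (Int.natCast_dvd_natCast.2 (Nat.dvd_of_mem_primeFactors hp)).trans h6
      have hf : (p : ℤ) ∣ f4 t - f4 ((rs t.1 p : ℤ), (rs t.2 p : ℤ)) :=
        f4_congr (rs_dvd t.1 hpp.ne_zero) (rs_dvd t.2 hpp.ne_zero)
      rw [mem_filter, mem_product, mem_range, mem_range]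
      exact ⟨⟨rs_lt _ hpp.ne_zero, rs_lt _ hpp.ne_zero⟩, (dvd_of_sub hf).1 h8⟩
    · intro p hp hps hpv hd
      obtain ⟨⟨hz', hy⟩, hpp⟩ := mem_PS.1 hp
      have hf : (p : ℤ) ∣ f4 t := hd
      by_cases h7 : (p : ℤ) ^ 2 ∣ f4 t
      · apply hpv
        rw [Nat.mem_primeFactors, ← h5]
        exact ⟨hpp, (dvd_s2 hpp).2 ⟨hp, h7⟩, by rw [h5]; exact dv_ne_zero hv'⟩
      · apply hps
        rw [Nat.mem_primeFactors, ← h4]
        exact ⟨hpp, (dvd_s1 hpp).2 ⟨hp, hf, h7⟩, by rw [h4]; exact dv_ne_zero hs⟩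

/-- **CNT4** -/
theorem cnt4 : Pool.Agent.L0h5.T4.CNT4 := by
  classical
  obtain ⟨zs, hzs⟩ := sv2 4 3
  refine ⟨max zs 10, fun z hz => ?_⟩
  have hz10 : 10 ≤ z := (le_max_right _ _).trans hz
  obtain ⟨C0, hC0⟩ := lower4 (z := z) (by omega)
  obtain ⟨C, K, y0, hC, hK, hsv⟩ := hzs z ((le_max_left _ _).trans hz) (by omega) C0
  refine ⟨18 * C, K, y0 + 3, by positivity, hK, ?_⟩
  intro X y Y hy hzy hyX s v u hs hv' hu hsvu hcop T' hT hst
  have hyX1 : y ≤ X := le_trans (Nat.le_self_pow (by omega) y) hyX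
  set X' : ℕ := 2 * X + 1 with hX'
  have hsq : ∀ x2 : ℤ, SvQ2 Q4 z y X' 4 3 (-(X : ℤ) - 1) x2 C := by
    intro x2 r1 r2 mm hm1 hm4 T'' hT''
    refine hsv X' y (by omega) hzy (hyX.trans (by omega)) _ _ r1 r2 mm hm1 hm4 Q4
      (fun p => nu4 p) ?_ ?_ ?_ (hC0 y (by omega) hzy) T'' hT''
    · intro p _ a a' b b' h1 h2
      unfold Q4
      exact dvd_of_sub (f4_congr (t := (a, b)) (t' := (a', b')) h1 h2)
    · intro p _ _
      unfold nu4
      congr 1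
    · intro p hp
      obtain ⟨⟨hz', -⟩, hpp⟩ := mem_PS.1 hp
      exact (nu4_le hpp (by omega)).trans (Nat.mul_le_mul_right _ (by norm_num))
  have hgs := gw_nonneg (c := 4) (by omega) hs
  have hgv := gw_nonneg (c := 4) (by omega) hv'
  have hl : 0 < Real.log y := Real.log_pos (by exact_mod_cast (by omega : 1 < y))
  set R : ℝ := ((1 / 2) ^ s.primeFactors.card * gw 1 4 s) *
    ((4 : ℝ) ^ v.primeFactors.card * (gw 1 4 v / v)) *
    ((4 : ℝ) ^ u.primeFactors.card / u) / (Real.log y) ^ 3 with hR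
  have hR0 : 0 ≤ R := by
    rw [hR]
    positivity
  -- the boxes
  set kk : ℤ × ℤ → ℕ := fun t => ((t.2 + (X : ℤ) ^ 2) / (X' : ℤ)).toNat with hkk
  have hX'z : (0 : ℤ) < (X' : ℤ) := by exact_mod_cast (by omega : 0 < X')
  have hXc : (X' : ℤ) = 2 * X + 1 := by
    rw [hX']
    push_cast
    ring
  have hb : ∀ t ∈ T', -(X : ℤ) ≤ t.1 ∧ t.1 ≤ X ∧ -((X : ℤ) ^ 2) ≤ t.2 ∧ t.2 ≤ (X : ℤ) ^ 2 := by
    intro t ht
    obtain ⟨h1, h2, -⟩ := hT t ht
    have h3 : (t.2.natAbs : ℤ) ≤ (X : ℤ) ^ 2 := by exact_mod_cast h2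
    refine ⟨by omega, by omega, ?_, ?_⟩
    · have := neg_abs_le t.2
      rw [← Int.natCast_natAbs] at this
      linarith
    · have := le_abs_self t.2
      rw [← Int.natCast_natAbs] at this
      linarith
  have hmap : ∀ t ∈ T', kk t ∈ range (X + 1) := by
    intro t ht
    obtain ⟨-, -, h1, h2⟩ := hb t ht
    rw [mem_range, hkk]
    simp only
    have h3 : (t.2 + (X : ℤ) ^ 2) / (X' : ℤ) < X + 1 := by
      rw [Int.ediv_lt_iff_lt_mul hX'z, hXc]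
      nlinarith
    have h4 : 0 ≤ (t.2 + (X : ℤ) ^ 2) / (X' : ℤ) := Int.ediv_nonneg (by linarith) hX'z.le
    omega
  have hfib : ∀ k ∈ range (X + 1), ((T'.filter (fun t => kk t = k)).card : ℝ) ≤
      C * (X' : ℝ) ^ 2 * R := by
    intro k _
    have h1 := box4 (Y := Y) (s := s) (v := v) (u := u) hz10 hC hzy
      (hsq (-((X : ℤ) ^ 2) - 1 + k * X')) hs hv' hu (hsvu.trans (by omega)) hcop
      (T'.filter (fun t => kk t = k)) (fun t ht => by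
        obtain ⟨ht1, ht2⟩ := mem_filter.1 ht
        obtain ⟨-, -, -, h3, h4, h5⟩ := hT t ht1
        obtain ⟨b1, b2, b3, b4⟩ := hb t ht1
        have h6 : 0 ≤ (t.2 + (X : ℤ) ^ 2) / (X' : ℤ) := Int.ediv_nonneg (by linarith) hX'z.le
        have h7 : (t.2 + (X : ℤ) ^ 2) / (X' : ℤ) = k := by
          rw [hkk] at ht2
          simp only at ht2
          omega
        have h8 := Int.mul_ediv_add_emod (t.2 + (X : ℤ) ^ 2) (X' : ℤ)
        have h9 := Int.emod_nonneg (t.2 + (X : ℤ) ^ 2) hX'z.ne'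
        have h10 := Int.emod_lt_of_pos (t.2 + (X : ℤ) ^ 2) hX'z
        rw [h7] at h8
        have h11 : (X' : ℤ) * k = k * X' := mul_comm _ _
        exact ⟨by linarith, by linarith, by linarith, by linarith, h3, h4, h5⟩)
      (fun t ht t' ht' => hst t (mem_filter.1 ht).1 t' (mem_filter.1 ht').1)
    refine h1.trans (le_of_eq ?_)
    rw [hR]
    ring
  have hcard : (T'.card : ℝ) = ∑ k ∈ range (X + 1), ((T'.filter (fun t => kk t = k)).card : ℝ) := by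
    exact_mod_cast card_eq_sum_card_fiberwise (f := kk) (t := range (X + 1)) hmap
  have hXr : (1 : ℝ) ≤ X := by exact_mod_cast (by omega : 1 ≤ X)
  have h3 : (X' : ℝ) ^ 2 ≤ 9 * (X : ℝ) ^ 2 := by
    have h4 : (X' : ℝ) ≤ 3 * X := by
      rw [hX']
      push_cast
      linarith
    calc (X' : ℝ) ^ 2 ≤ (3 * (X : ℝ)) ^ 2 := pow_le_pow_left₀ (Nat.cast_nonneg _) h4 2
      _ = _ := by ring
  rw [hcard]
  refine (sum_le_sum hfib).trans ?_
  rw [sum_const, card_range, nsmul_eq_mul]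
  have h5 : (((X + 1 : ℕ)) : ℝ) ≤ 2 * X := by
    push_cast
    linarith
  have h6 : (((X + 1 : ℕ)) : ℝ) * (C * (X' : ℝ) ^ 2 * R) ≤ (2 * X) * (C * (9 * (X : ℝ) ^ 2) * R) := by
    refine mul_le_mul h5 ?_ (by positivity) (by positivity)
    exact mul_le_mul_of_nonneg_right (mul_le_mul_of_nonneg_left h3 hC) hR0
  refine h6.trans (le_of_eq ?_)
  rw [hR]
  ring

end Pool.Agent.L0h80.T4
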