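import Pool.Agent.L0h5.T4.Stm4

/-!
# Curves with a point of order 4: the rank and the local pictures
-/

set_option autoImplicit false
set_option linter.unusedSectionVars false
set_option linter.unusedVariables false

namespace Pool.Agent.L0h80.T4

open Finset Pool.Agent.W262.RK Pool.Agent.L0h5.TF Pool.Agent.L0h5.TH Pool.Agent.L0h5.T4

lemma nr_spec {p : ℕ} {b : ℤ} (hb : ¬ (p : ℤ) ∣ b) (hs : sg0 p b = true) :
    ¬ (p : ℤ) ∣ nr p ∧ sg0 p (nr p) = true := by
  have h : ∃ n : ℤ, ¬ (p : ℤ) ∣ n ∧ sg0 p n = true := ⟨b, hb, hs⟩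
  unfold nr
  rw [dif_pos h]
  exact h.choose_spec

lemma nr_unit {p : ℕ} (hp : p.Prime) : ¬ (p : ℤ) ∣ nr p := by
  have hpi := Nat.prime_iff_prime_int.1 hp
  unfold nr
  split_ifs with h
  · exact h.choose_spec.1
  · intro h1
    exact hpi.not_isUnit (isUnit_of_dvd_one h1)

lemma kap4_unit {p : ℕ} (hp : p.Prime) (j : Fin 3) (r : ℕ) (k : Fin 3) :
    ¬ (p : ℤ) ∣ kap4 j p r k := by
  have hpi := Nat.prime_iff_prime_int.1 hp
  have h1 : ¬ (p : ℤ) ∣ 1 := fun h => hpi.not_isUnit (isUnit_of_dvd_one h)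
  unfold kap4
  split_ifs
  · exact h1
  · exact nr_unit hp
  · exact h1
  · rw [dvd_neg]
    exact h1

lemma val_one {p : ℕ} [Fact p.Prime] {n : ℤ} (h1 : (p : ℤ) ∣ n) (h2 : ¬ (p : ℤ) ^ 2 ∣ n) :
    padicValInt p n = 1 := by
  have hn : n ≠ 0 := by
    rintro rfl
    exact h2 (dvd_zero _)
  have e1 := (padicValInt_dvd_iff (p := p) 1 n).1 (by simpa using h1)
  have e2 : ¬ 2 ≤ padicValInt p n := fun h => h2 ((padicValInt_dvd_iff (p := p) 2 n).2 (Or.inr h))
  rcases e1 with h | h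
  · exact absurd h hn
  · omega

lemma kap4_1 (p r : ℕ) (k : Fin 3) : kap4 1 p r k = 1 := by
  unfold kap4
  rw [if_neg (by decide), if_pos rfl]

lemma kap4_2 (p r : ℕ) (k : Fin 3) : kap4 2 p r k = -1 := by
  unfold kap4
  rw [if_neg (by decide), if_neg (by decide)]

/-- the local hypotheses -/
lemma locE4 {p : ℕ} (hp : p.Prime) (hp3 : 3 < p) {t : ℤ × ℤ} (h : (p : ℤ) ∣ f4 t)
    (h2 : ¬ (p : ℤ) ^ 2 ∣ f4 t) :
    LocE (cl4 (st4 t p).1) (ev4 (st4 t p).1)
      (kap4 (st4 t p).1 p (if (st4 t p).2 = true then 1 else 0)) false p (t.1 ^ 2)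
      (t.1 ^ 2 - 4 * t.2) := by
  have : Fact p.Prime := ⟨hp⟩
  have hpi := Nat.prime_iff_prime_int.1 hp
  have h2p : ¬ (p : ℤ) ∣ 2 := by
    intro h
    have h7 : p ∣ 2 := by exact_mod_cast h
    have := Nat.le_of_dvd (by norm_num) h7
    omega
  have h4 : ¬ (p : ℤ) ∣ 4 := by
    intro h
    have h5 : (p : ℤ) ∣ 2 ^ 2 := by
      norm_num
      exact h
    exact h2p (hpi.dvd_of_dvd_pow h5)
  have hj4 : jacobiSym 4 p = 1 := by
    have e : (4 : ℤ) = 2 ^ 2 := by norm_num
    rw [e, jacobiSym.pow_left]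
    rcases Pool.Agent.W342.RK2.jac_ne h2p with h | h <;> rw [h] <;> norm_num
  have hJc : ¬ (p : ℤ) ∣ t.1 → jacobiSym (t.1 ^ 2) p = 1 := by
    intro hc
    rw [jacobiSym.pow_left]
    rcases Pool.Agent.W342.RK2.jac_ne hc with h | h <;> rw [h] <;> norm_num
  by_cases hc : (p : ℤ) ∣ t.1
  · -- `p ∣ c`
    have hb : ¬ (p : ℤ) ∣ t.2 := by
      intro hb
      apply h2
      unfold f4
      rw [sq (p : ℤ)]
      exact (mul_dvd_mul hc hb).mul_right _
    have hst : st4 t p = (0, sg0 p t.2) := by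
      unfold st4
      rw [if_pos hc]
    rw [hst]
    have hcl : cl4 ((0 : Fin 3), sg0 p t.2).1 = 0 := rfl
    have hev : ev4 ((0 : Fin 3), sg0 p t.2).1 = true := rfl
    rw [hcl, hev]
    unfold LocE
    rw [if_neg (by decide), if_pos rfl]
    have hc2 : (p : ℤ) ∣ t.1 ^ 2 := dvd_pow hc two_ne_zero
    refine ⟨hc2, ?_, ?_, ?_⟩
    · intro hB
      have h5 : (p : ℤ) ∣ 4 * t.2 := by
        have := dvd_sub hc2 hB
        rwa [sub_sub_cancel] at this
      rcases hpi.dvd_or_dvd h5 with h6 | h6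
      · exact h4 h6
      · exact hb h6
    · have hB : jacobiSym (-(t.1 ^ 2 - 4 * t.2)) p = jacobiSym t.2 p := by
        have e1 : (-(t.1 ^ 2 - 4 * t.2)) % p = (4 * t.2) % p := by
          have : (4 * t.2) ≡ (-(t.1 ^ 2 - 4 * t.2)) [ZMOD p] := by
            rw [Int.modEq_iff_dvd]
            have e : -(t.1 ^ 2 - 4 * t.2) - 4 * t.2 = -(t.1 ^ 2) := by ring
            rw [e, dvd_neg]
            exact hc2
          exact this.symm
        rw [jacobiSym.mod_left (-(t.1 ^ 2 - 4 * t.2)), e1, ← jacobiSym.mod_left,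
          jacobiSym.mul_left, hj4, one_mul]
      rw [jacobiSym.mul_left, hB]
      unfold kap4
      rw [if_pos rfl]
      rcases hs : sg0 p t.2 with _ | _
      · rw [if_pos (by simp)]
        have h5 : jacobiSym t.2 p = 1 := by
          unfold sg0 at hs
          rw [decide_eq_false_iff_not] at hs
          exact (Pool.Agent.W342.RK2.jac_ne hb).resolve_right hs
        rw [h5, jacobiSym.one_left]
        norm_num
      · rw [if_neg (by simp)]
        have h5 := (nr_spec hb hs).2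
        unfold sg0 at hs h5
        rw [decide_eq_true_iff] at hs h5
        rw [hs, h5]
        norm_num
    · rw [decide_eq_true_iff]
      unfold padicValInt
      rw [Int.natAbs_pow]
      rcases eq_or_ne t.1.natAbs 0 with h0 | h0
      · rw [h0]
        simp
      · rw [padicValNat.pow]
        exact even_two_mul _
  · by_cases hb : (p : ℤ) ∣ t.2
    · -- `p ∣ b`
      have hst : st4 t p = (1, sg0 p (t.2 / p)) := by
        unfold st4
        rw [if_neg hc, if_pos hb]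
      rw [hst]
      have hcl : cl4 ((1 : Fin 3), sg0 p (t.2 / p)).1 = 2 := rfl
      have hev : ev4 ((1 : Fin 3), sg0 p (t.2 / p)).1 = false := rfl
      rw [hcl, hev]
      unfold LocE
      rw [if_neg (by decide), if_neg (by decide), if_neg (by decide)]
      have e : t.1 ^ 2 - (t.1 ^ 2 - 4 * t.2) = 4 * t.2 := by ring
      rw [e]
      have hb2 : ¬ (p : ℤ) ^ 2 ∣ 4 * t.2 := by
        intro h5
        apply h2
        have h6 : IsCoprime ((p : ℤ) ^ 2) 4 := ((Prime.coprime_iff_not_dvd hpi).2 h4).pow_left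
        have h7 := h6.dvd_of_dvd_mul_left h5
        unfold f4
        exact (h7.mul_left _).mul_right _
      refine ⟨hb.mul_left _, fun h => hc (hpi.dvd_of_dvd_pow h), ?_, ?_⟩
      · show jacobiSym (kap4 1 p _ 0 * t.1 ^ 2) p = 1
        rw [kap4_1, one_mul]
        exact hJc hc
      · rw [val_one (hb.mul_left _) hb2]
        decide
    · -- `p ∣ D`
      have hD : (p : ℤ) ∣ t.1 ^ 2 - 4 * t.2 := by
        unfold f4 at h
        rcases hpi.dvd_or_dvd h with h5 | h5
        · rcases hpi.dvd_or_dvd h5 with h6 | h6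
          · exact absurd h6 hc
          · exact absurd h6 hb
        · exact h5
      have hst : st4 t p = (2, sg0 p ((t.1 ^ 2 - 4 * t.2) / p)) := by
        unfold st4
        rw [if_neg hc, if_neg hb]
      rw [hst]
      have hcl : cl4 ((2 : Fin 3), sg0 p ((t.1 ^ 2 - 4 * t.2) / p)).1 = 1 := rfl
      have hev : ev4 ((2 : Fin 3), sg0 p ((t.1 ^ 2 - 4 * t.2) / p)).1 = false := rfl
      rw [hcl, hev]
      unfold LocE
      rw [if_neg (by decide), if_neg (by decide), if_pos rfl]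
      have hD2 : ¬ (p : ℤ) ^ 2 ∣ t.1 ^ 2 - 4 * t.2 := by
        intro h5
        apply h2
        unfold f4
        exact h5.mul_left _
      refine ⟨hD, fun h => hc (hpi.dvd_of_dvd_pow h), ?_, ?_⟩
      · show jacobiSym (kap4 2 p _ 0 * -(t.1 ^ 2)) p = 1
        have e : (-1 : ℤ) * -(t.1 ^ 2) = t.1 ^ 2 := by ring
        rw [kap4_2, e]
        exact hJc hc
      · rw [val_one hD hD2]
        decide

/-- **RANK4** -/
theorem rank4 : RANK4 := by
  intro z y X k E t hz hf hb hE hk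
  have hne : t.1 ≠ 0 ∧ t.2 ≠ 0 ∧ t.1 ^ 2 - 4 * t.2 ≠ 0 := by
    unfold f4 at hf
    exact ⟨left_ne_zero_of_mul (left_ne_zero_of_mul hf),
      right_ne_zero_of_mul (left_ne_zero_of_mul hf), right_ne_zero_of_mul hf⟩
  obtain ⟨hc0, hb0, hD0⟩ := hne
  have hA : t.1 ^ 2 ≠ 0 := pow_ne_zero _ hc0
  have hAB : t.1 ^ 2 ≠ t.1 ^ 2 - 4 * t.2 := by
    intro h
    apply hb0
    linarith
  refine rankA (by omega) hA hD0 hAB hf hb hE hk ?_ (fun _ _ _ _ h => h) _ ?_ ?_
  · intro q hq hzq h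
    have hpi := Nat.prime_iff_prime_int.1 hq
    have h4 : ¬ (q : ℤ) ∣ 4 := by
      intro h
      have h5 : (q : ℤ) ∣ 2 ^ 2 := by
        norm_num
        exact h
      have h6 := hpi.dvd_of_dvd_pow h5
      have h7 : q ∣ 2 := by exact_mod_cast h6
      have := Nat.le_of_dvd (by norm_num) h7
      omega
    have e : t.1 ^ 2 * (t.1 ^ 2 - 4 * t.2) * (t.1 ^ 2 - (t.1 ^ 2 - 4 * t.2)) =
        t.1 ^ 2 * (t.1 ^ 2 - 4 * t.2) * (4 * t.2) := by ring
    rw [e] at h
    unfold f4
    rcases hpi.dvd_or_dvd h with h1 | h1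
    · rcases hpi.dvd_or_dvd h1 with h2 | h2
      · exact ((hpi.dvd_of_dvd_pow h2).mul_right _).mul_right _
      · exact h2.mul_left _
    · rcases hpi.dvd_or_dvd h1 with h2 | h2
      · exact absurd h2 h4
      · exact (h2.mul_left _).mul_right _
  · intro p hp hzp _ _
    unfold LS4
    exact xce _ _ _ _ p hp (by omega) (fun k => kap4_unit hp _ _ k)
  · intro p hpf hzp h h2 x x' hx' hcurve e1 e2 he1 he2 hs1 hs2
    have hp : p.Prime := hpf.out
    unfold LS4
    exact locE (by omega) _ _ _ _ (fun k => kap4_unit hp _ _ k) hA hD0 hAB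
      (locE4 hp (by omega) h h2) x x' hx' hcurve e1 e2 he1 he2 hs1 hs2

end Pool.Agent.L0h80.T4
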