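import Pool.Agent.L0h5.T4.Stm4

/-!
# Curves with a point of order 4: the classes modulo `p` and `p ^ 2`
-/

set_option autoImplicit false
set_option linter.unusedSectionVars false
set_option linter.unusedVariables false

namespace Pool.Agent.L0h80.T4

open Finset Polynomial Pool.Agent.W262.RK Pool.Agent.L0h5.TF Pool.Agent.L0h5.TH Pool.Agent.L0h5.T4

/-- the forbidden classes -/
def Q4 (p : ℕ) (x y : ℤ) : Prop := (p : ℤ) ∣ f4 (x, y)

open Classical in
/-- the number of the forbidden classes -/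
noncomputable def nu4 (p : ℕ) : ℕ :=
  ((range p ×ˢ range p).filter (fun x : ℕ × ℕ => Q4 p (x.1 : ℤ) (x.2 : ℤ))).card

lemma f4_congr {n : ℤ} {t t' : ℤ × ℤ} (h1 : n ∣ t.1 - t'.1) (h2 : n ∣ t.2 - t'.2) :
    n ∣ f4 t - f4 t' := by
  unfold f4
  have e : t.1 * t.2 * (t.1 ^ 2 - 4 * t.2) - t'.1 * t'.2 * (t'.1 ^ 2 - 4 * t'.2) =
      (t.1 - t'.1) * (t.2 * (t.1 ^ 2 - 4 * t.2) + t'.1 * t.2 * (t.1 + t'.1)) +
        (t.2 - t'.2) * (t'.1 * (t'.1 ^ 2 - 4 * t.2) - 4 * (t'.1 * t'.2)) := by ring
  rw [e]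
  exact dvd_add (h1.mul_right _) (h2.mul_right _)

lemma dvd_of_sub {n a b : ℤ} (h : n ∣ a - b) : n ∣ a ↔ n ∣ b := by
  constructor
  · intro h2
    have := dvd_sub h2 h
    rwa [sub_sub_cancel] at this
  · intro h2
    have := dvd_add h h2
    rwa [sub_add_cancel] at this

/-- lines: on the parabola there is one point over every abscissa -/
lemma card_par {n : ℕ} (hn : Odd n) :
    ((range n ×ˢ range n).filter (fun x : ℕ × ℕ =>
      (n : ℤ) ∣ (x.1 : ℤ) ^ 2 - 4 * (x.2 : ℤ))).card ≤ n := by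
  have h1 : ((range n ×ˢ range n).filter (fun x : ℕ × ℕ =>
      (n : ℤ) ∣ (x.1 : ℤ) ^ 2 - 4 * (x.2 : ℤ))).card ≤ (range n).card := by
    apply card_le_card_of_injOn (fun x => x.1)
    · intro x hx
      have hx' := mem_filter.1 (mem_coe.1 hx)
      rw [mem_product] at hx'
      exact hx'.1.1
    · intro x hx x' hx' h
      have h1 := mem_filter.1 (mem_coe.1 hx)
      have h2 := mem_filter.1 (mem_coe.1 hx')
      rw [mem_product, mem_range, mem_range] at h1 h2
      simp only at h
      refine Prod.ext h ?_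
      have h3 : (n : ℤ) ∣ 4 * ((x'.2 : ℤ) - x.2) := by
        have e := dvd_sub h1.2 h2.2
        rw [h] at e
        have e2 : (x'.1 : ℤ) ^ 2 - 4 * (x.2 : ℤ) - ((x'.1 : ℤ) ^ 2 - 4 * (x'.2 : ℤ)) =
            4 * ((x'.2 : ℤ) - x.2) := by ring
        rwa [e2] at e
      have hc : IsCoprime (n : ℤ) 4 := by
        have : Nat.Coprime n 4 := by
          have h5 : Nat.Coprime n (2 ^ 2) := (Nat.coprime_two_right.2 hn).pow_right 2
          simpa using h5
        exact_mod_cast Nat.isCoprime_iff_coprime.2 this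
      have h4 := hc.dvd_of_dvd_mul_left h3
      have h6 : x.2 ≡ x'.2 [MOD n] := (Nat.modEq_iff_dvd).2 h4
      exact Nat.ModEq.eq_of_lt_of_lt h6 h1.1.2 h2.1.2
  rwa [card_range] at h1

lemma nu4_le {p : ℕ} (hp : p.Prime) (hp2 : p ≠ 2) : nu4 p ≤ 3 * p := by
  classical
  have hpi := Nat.prime_iff_prime_int.1 hp
  have hodd := hp.odd_of_ne_two hp2
  have hsub : (range p ×ˢ range p).filter (fun x : ℕ × ℕ => Q4 p (x.1 : ℤ) (x.2 : ℤ)) ⊆
      (({0} ×ˢ range p) ∪ (range p ×ˢ {0})) ∪ ((range p ×ˢ range p).filter (fun x : ℕ × ℕ =>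
      (p : ℤ) ∣ (x.1 : ℤ) ^ 2 - 4 * (x.2 : ℤ))) := by
    intro x hx
    obtain ⟨h1, h2⟩ := mem_filter.1 hx
    rw [mem_product] at h1
    unfold Q4 f4 at h2
    simp only at h2
    rw [mem_union, mem_union, mem_filter, mem_product, mem_product, mem_product, mem_singleton,
      mem_singleton]
    rcases hpi.dvd_or_dvd h2 with h3 | h3
    · rcases hpi.dvd_or_dvd h3 with h4 | h4
      · have h5 : p ∣ x.1 := by exact_mod_cast h4
        exact Or.inl (Or.inl ⟨Nat.eq_zero_of_dvd_of_lt h5 (mem_range.1 h1.1), h1.2⟩)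
      · have h5 : p ∣ x.2 := by exact_mod_cast h4
        exact Or.inl (Or.inr ⟨h1.1, Nat.eq_zero_of_dvd_of_lt h5 (mem_range.1 h1.2)⟩)
    · exact Or.inr ⟨h1, h3⟩
  unfold nu4
  refine (card_le_card hsub).trans ?_
  refine (card_union_le _ _).trans ?_
  have h1 := card_union_le (({0} : Finset ℕ) ×ˢ range p) (range p ×ˢ {0})
  rw [card_product, card_product, card_singleton, card_range] at h1
  have h2 := card_par hodd
  omega

lemma nu4_ge {p : ℕ} (hp : p.Prime) (hp2 : p ≠ 2) : 3 * p ≤ nu4 p + 2 := by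
  classical
  have hp1 := hp.one_lt
  have hodd := hp.odd_of_ne_two hp2
  have hpi := Nat.prime_iff_prime_int.1 hp
  set A : Finset (ℕ × ℕ) := {0} ×ˢ range p with hA
  set B : Finset (ℕ × ℕ) := Ico 1 p ×ˢ {0} with hB
  set D : Finset (ℕ × ℕ) := (Ico 1 p).image (fun x => (2 * x % p, x ^ 2 % p)) with hD
  have hDcard : D.card = p - 1 := by
    rw [hD, card_image_of_injOn, Nat.card_Ico]
    intro x hx x' hx' h
    have h1 := mem_Ico.1 (mem_coe.1 hx)
    have h2 := mem_Ico.1 (mem_coe.1 hx')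
    simp only [Prod.mk.injEq] at h
    have h3 : 2 * x ≡ 2 * x' [MOD p] := h.1
    have h4 : x ≡ x' [MOD p] :=
      Nat.ModEq.cancel_left_of_coprime (Nat.coprime_two_right.2 hodd) h3
    exact Nat.ModEq.eq_of_lt_of_lt h4 h1.2 h2.2
  have hDne : ∀ x ∈ D, x.1 ≠ 0 ∧ x.2 ≠ 0 := by
    intro x hx
    rw [hD, mem_image] at hx
    obtain ⟨w, hw, rfl⟩ := hx
    rw [mem_Ico] at hw
    have hw' : ¬ p ∣ w := fun h => by
      have := Nat.le_of_dvd (by omega) h
      omega
    constructor
    · intro h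
      have h1 : p ∣ 2 * w := Nat.dvd_of_mod_eq_zero h
      rcases (Nat.Prime.dvd_mul hp).1 h1 with h2 | h2
      · exact hp2 ((Nat.prime_dvd_prime_iff_eq hp Nat.prime_two).1 h2)
      · exact hw' h2
    · intro h
      have h1 : p ∣ w ^ 2 := Nat.dvd_of_mod_eq_zero h
      exact hw' (hp.dvd_of_dvd_pow h1)
  have hAB : Disjoint A B := by
    rw [disjoint_left]
    intro x hx hx'
    rw [hA, mem_product, mem_singleton] at hx
    rw [hB, mem_product, mem_Ico] at hx'
    omega
  have hABD : Disjoint (A ∪ B) D := by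
    rw [disjoint_left]
    intro x hx hx'
    have h1 := hDne x hx'
    rcases mem_union.1 hx with h2 | h2
    · rw [hA, mem_product, mem_singleton] at h2
      exact h1.1 h2.1
    · rw [hB, mem_product, mem_singleton] at h2
      exact h1.2 h2.2
  have hsub : (A ∪ B) ∪ D ⊆
      (range p ×ˢ range p).filter (fun x : ℕ × ℕ => Q4 p (x.1 : ℤ) (x.2 : ℤ)) := by
    intro x hx
    rw [mem_filter, mem_product, mem_range, mem_range]
    unfold Q4 f4
    simp only
    rcases mem_union.1 hx with h1 | h1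
    · rcases mem_union.1 h1 with h2 | h2
      · rw [hA, mem_product, mem_singleton, mem_range] at h2
        refine ⟨⟨by omega, h2.2⟩, ?_⟩
        rw [h2.1]
        simp
      · rw [hB, mem_product, mem_singleton, mem_Ico] at h2
        refine ⟨⟨by omega, by omega⟩, ?_⟩
        rw [h2.2]
        simp
    · rw [hD, mem_image] at h1
      obtain ⟨w, hw, rfl⟩ := h1
      refine ⟨⟨Nat.mod_lt _ hp.pos, Nat.mod_lt _ hp.pos⟩, ?_⟩
      simp only
      refine Dvd.dvd.mul_left ?_ _
      have e1 := mod_dvd (2 * w) p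
      have e2 := mod_dvd (w ^ 2) p
      have e3 : (p : ℤ) ∣ ((2 * w : ℕ) : ℤ) ^ 2 - ((2 * w % p : ℕ) : ℤ) ^ 2 := by
        rw [sq_sub_sq]
        exact e1.mul_left _
      have e4 : ((2 * w % p : ℕ) : ℤ) ^ 2 - 4 * ((w ^ 2 % p : ℕ) : ℤ) =
          4 * (((w ^ 2 : ℕ) : ℤ) - ((w ^ 2 % p : ℕ) : ℤ)) -
            (((2 * w : ℕ) : ℤ) ^ 2 - ((2 * w % p : ℕ) : ℤ) ^ 2) := by
        push_cast
        ring
      rw [e4]
      exact dvd_sub (e2.mul_left _) e3
  have h1 := card_le_card hsub
  rw [card_union_of_disjoint hABD, card_union_of_disjoint hAB, hDcard] at h1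
  have h2 : A.card = p := by rw [hA, card_product, card_singleton, card_range, one_mul]
  have h3 : B.card = p - 1 := by rw [hB, card_product, card_singleton, Nat.card_Ico, mul_one]
  rw [h2, h3] at h1
  unfold nu4
  omega

/-- the multiples of `p` modulo `p ^ 2` -/
def mult (p : ℕ) : Finset ℕ := (range (p ^ 2)).filter (fun x => p ∣ x)

lemma card_mult {p : ℕ} (hp : p.Prime) : (mult p).card ≤ p := by
  have h1 : (mult p).card ≤ (range p).card := by
    apply card_le_card_of_injOn (fun x => x / p)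
    · intro x hx
      have hx' := mem_filter.1 (mem_coe.1 hx)
      rw [mem_range] at hx'
      rw [mem_coe, mem_range]
      apply Nat.div_lt_of_lt_mul
      rw [← sq]
      exact hx'.1
    · intro x hx x' hx' h
      have h1 := mem_filter.1 (mem_coe.1 hx)
      have h2 := mem_filter.1 (mem_coe.1 hx')
      simp only at h
      rw [← Nat.div_mul_cancel h1.2, ← Nat.div_mul_cancel h2.2, h]
  rwa [card_range] at h1

open Classical in
/-- the classes with square -/
noncomputable def V4 (p : ℕ) : Finset (ℕ × ℕ) :=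
  (range (p ^ 2) ×ˢ range (p ^ 2)).filter (fun x : ℕ × ℕ =>
    (p : ℤ) ^ 2 ∣ f4 ((x.1 : ℤ), (x.2 : ℤ)))

lemma card_V4 {p : ℕ} (hp : p.Prime) (hp2 : p ≠ 2) : (V4 p).card ≤ 4 * p ^ 2 := by
  classical
  have hpi := Nat.prime_iff_prime_int.1 hp
  have hodd : Odd (p ^ 2) := (hp.odd_of_ne_two hp2).pow
  have hsub : V4 p ⊆ ((mult p ×ˢ mult p) ∪ ({0} ×ˢ range (p ^ 2))) ∪
      ((range (p ^ 2) ×ˢ {0}) ∪ ((range (p ^ 2) ×ˢ range (p ^ 2)).filter (fun x : ℕ × ℕ =>
      ((p ^ 2 : ℕ) : ℤ) ∣ (x.1 : ℤ) ^ 2 - 4 * (x.2 : ℤ)))) := by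
    intro x hx
    obtain ⟨h1, h2⟩ := mem_filter.1 hx
    rw [mem_product] at h1
    unfold f4 at h2
    simp only at h2
    rw [mem_union, mem_union, mem_union, mem_filter, mem_product, mem_product, mem_product,
      mem_product, mem_singleton, mem_singleton]
    have hco : ∀ a : ℤ, ¬ (p : ℤ) ∣ a → IsCoprime ((p : ℤ) ^ 2) a := fun a ha =>
      ((Prime.coprime_iff_not_dvd hpi).2 ha).pow_left
    have hz1 : (p : ℤ) ^ 2 ∣ (x.1 : ℤ) → x.1 = 0 := by
      intro h
      have h5 : p ^ 2 ∣ x.1 := by exact_mod_cast h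
      exact Nat.eq_zero_of_dvd_of_lt h5 (mem_range.1 h1.1)
    have hz2 : (p : ℤ) ^ 2 ∣ (x.2 : ℤ) → x.2 = 0 := by
      intro h
      have h5 : p ^ 2 ∣ x.2 := by exact_mod_cast h
      exact Nat.eq_zero_of_dvd_of_lt h5 (mem_range.1 h1.2)
    have h4 : ¬ (p : ℤ) ∣ 4 := by
      intro h
      have h5 : (p : ℤ) ∣ 2 ^ 2 := by
        norm_num
        exact h
      have h6 := hpi.dvd_of_dvd_pow h5
      have h7 : p ∣ 2 := by exact_mod_cast h6
      exact hp2 ((Nat.prime_dvd_prime_iff_eq hp Nat.prime_two).1 h7)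
    by_cases hx1 : (p : ℤ) ∣ (x.1 : ℤ)
    · by_cases hx2 : (p : ℤ) ∣ (x.2 : ℤ)
      · left; left
        exact ⟨mem_filter.2 ⟨h1.1, by exact_mod_cast hx1⟩, mem_filter.2 ⟨h1.2, by exact_mod_cast hx2⟩⟩
      · left; right
        have hD : ¬ (p : ℤ) ∣ (x.1 : ℤ) ^ 2 - 4 * (x.2 : ℤ) := by
          intro h
          have h5 : (p : ℤ) ∣ 4 * (x.2 : ℤ) := by
            have := dvd_sub ((dvd_pow hx1 two_ne_zero)) h
            rwa [sub_sub_cancel] at this
          rcases hpi.dvd_or_dvd h5 with h6 | h6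
          · exact h4 h6
          · exact hx2 h6
        have h5 := (hco _ hD).dvd_of_dvd_mul_right h2
        exact ⟨hz1 ((hco _ hx2).dvd_of_dvd_mul_right h5), h1.2⟩
    · by_cases hx2 : (p : ℤ) ∣ (x.2 : ℤ)
      · right; left
        have hD : ¬ (p : ℤ) ∣ (x.1 : ℤ) ^ 2 - 4 * (x.2 : ℤ) := by
          intro h
          have h5 : (p : ℤ) ∣ (x.1 : ℤ) ^ 2 := by
            have := dvd_add h (hx2.mul_left 4)
            rwa [sub_add_cancel] at this
          exact hx1 (hpi.dvd_of_dvd_pow h5)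
        have h5 := (hco _ hD).dvd_of_dvd_mul_right h2
        exact ⟨h1.1, hz2 ((hco _ hx1).dvd_of_dvd_mul_left h5)⟩
      · right; right
        have hxy : ¬ (p : ℤ) ∣ (x.1 : ℤ) * (x.2 : ℤ) := by
          intro h
          rcases hpi.dvd_or_dvd h with h6 | h6
          · exact hx1 h6
          · exact hx2 h6
        refine ⟨h1, ?_⟩
        push_cast
        exact (hco _ hxy).dvd_of_dvd_mul_left h2
  refine (card_le_card hsub).trans ?_
  refine (card_union_le _ _).trans ?_
  have h1 := card_union_le (mult p ×ˢ mult p) (({0} : Finset ℕ) ×ˢ range (p ^ 2))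
  have h2 := card_union_le (range (p ^ 2) ×ˢ ({0} : Finset ℕ))
    ((range (p ^ 2) ×ˢ range (p ^ 2)).filter (fun x : ℕ × ℕ =>
      ((p ^ 2 : ℕ) : ℤ) ∣ (x.1 : ℤ) ^ 2 - 4 * (x.2 : ℤ)))
  rw [card_product, card_product, card_singleton, card_range, one_mul] at h1
  rw [card_product, card_singleton, card_range, mul_one] at h2
  have h3 := card_par hodd
  have h4 := Nat.mul_le_mul (card_mult hp) (card_mult hp)
  have h5 : p * p = p ^ 2 := (sq p).symm
  omega

/-- the half classes modulo `p` -/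
lemma card_hp {p : ℕ} (hp : p.Prime) (hp2 : p ≠ 2) (b : Bool) :
    ((range p).filter (fun x : ℕ => ¬ (p : ℤ) ∣ (x : ℤ) ∧ sg0 p (x : ℤ) = b)).card ≤ p / 2 := by
  set e : ℤ := if b = true then -1 else 1 with he
  have h1 := Pool.Agent.W372.RK2.card_W hp hp2 e (by rw [he]; split_ifs <;> simp)
  have h2 : ((range p).filter (fun x : ℕ => ¬ (p : ℤ) ∣ (x : ℤ) ∧ sg0 p (x : ℤ) = b)).card ≤
      ((range p).filter (fun x : ℕ => jacobiSym x p = e)).card := by
    apply card_le_card
    intro x hx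
    rw [mem_filter] at hx ⊢
    refine ⟨hx.1, ?_⟩
    have : Fact p.Prime := ⟨hp⟩
    have h7 := Pool.Agent.W342.RK2.jac_ne hx.2.1
    have h8 := hx.2.2
    unfold sg0 at h8
    rw [he]
    rcases h7 with h7 | h7
    · rw [h7] at h8 ⊢
      rw [← h8]
      simp
    · rw [h7] at h8 ⊢
      rw [← h8]
      simp
  omega

lemma sg0_congr' {p : ℕ} {a b : ℤ} (h : (p : ℤ) ∣ b - a) : sg0 p b = sg0 p a := by
  unfold sg0
  have h3 : b % p = a % p := by
    have : a ≡ b [ZMOD p] := (Int.modEq_iff_dvd).2 h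
    exact this.symm
  rw [jacobiSym.mod_left b, jacobiSym.mod_left a, h3]

lemma sg0_div_congr {p : ℕ} (hp : p ≠ 0) {a b : ℤ} (h : (p : ℤ) ^ 2 ∣ b - a) :
    sg0 p (b / p) = sg0 p (a / p) := by
  have hp0 : (p : ℤ) ≠ 0 := by exact_mod_cast hp
  obtain ⟨k, hk⟩ := h
  have e : b = a + (p : ℤ) * (p * k) := by
    rw [sq] at hk
    linarith
  apply sg0_congr'
  rw [e, Int.add_mul_ediv_left _ _ hp0, add_sub_cancel_left]
  exact dvd_mul_right _ _

lemma st4_congr {p : ℕ} (hp : p ≠ 0) {t t' : ℤ × ℤ} (h1 : (p : ℤ) ^ 2 ∣ t.1 - t'.1)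
    (h2 : (p : ℤ) ^ 2 ∣ t.2 - t'.2) : st4 t p = st4 t' p := by
  have hd1 : (p : ℤ) ∣ t.1 - t'.1 := (dvd_pow_self (p : ℤ) two_ne_zero).trans h1
  have hd2 : (p : ℤ) ∣ t.2 - t'.2 := (dvd_pow_self (p : ℤ) two_ne_zero).trans h2
  have e1 := dvd_of_sub hd1
  have e2 := dvd_of_sub hd2
  have h3 : (p : ℤ) ^ 2 ∣ (t.1 ^ 2 - 4 * t.2) - (t'.1 ^ 2 - 4 * t'.2) := by
    have e : (t.1 ^ 2 - 4 * t.2) - (t'.1 ^ 2 - 4 * t'.2) =
        (t.1 - t'.1) * (t.1 + t'.1) - 4 * (t.2 - t'.2) := by ring
    rw [e]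
    exact dvd_sub (h1.mul_right _) (h2.mul_left _)
  unfold st4
  rw [sg0_congr' hd2, sg0_div_congr hp h2, sg0_div_congr hp h3]
  simp only [e1, e2]

open Classical in
/-- the classes with given state -/
noncomputable def W4 (σ : Fin 3 × Bool) (p : ℕ) : Finset (ℕ × ℕ) :=
  (range (p ^ 2) ×ˢ range (p ^ 2)).filter (fun x : ℕ × ℕ =>
    (p : ℤ) ∣ f4 ((x.1 : ℤ), (x.2 : ℤ)) ∧ ¬ (p : ℤ) ^ 2 ∣ f4 ((x.1 : ℤ), (x.2 : ℤ)) ∧
      st4 ((x.1 : ℤ), (x.2 : ℤ)) p = σ)

lemma card_unit {p : ℕ} (hp : p.Prime) (hp2 : p ≠ 2) (b : Bool) :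
    ((range (p ^ 2)).filter (fun y : ℕ => ¬ (p : ℤ) ∣ (y : ℤ) ∧ sg0 p (y : ℤ) = b)).card ≤
      p * (p / 2) := by
  refine (card_le_mul_card_image_of_maps_to (f := fun y => y % p)
    (t := (range p).filter (fun x : ℕ => ¬ (p : ℤ) ∣ (x : ℤ) ∧ sg0 p (x : ℤ) = b)) ?_ p ?_).trans
    (Nat.mul_le_mul_left _ (card_hp hp hp2 b))
  · intro y hy
    rw [mem_filter] at hy ⊢
    have h1 := mod_dvd y p
    rw [mem_range]
    refine ⟨Nat.mod_lt _ hp.pos, ?_, ?_⟩
    · rw [← dvd_of_sub h1]
      exact hy.2.1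
    · rw [← sg0_congr' h1]
      exact hy.2.2
  · intro r _
    have h1 : (((range (p ^ 2)).filter (fun y : ℕ => ¬ (p : ℤ) ∣ (y : ℤ) ∧
        sg0 p (y : ℤ) = b)).filter (fun a => a % p = r)).card ≤ (range p).card := by
      apply card_le_card_of_injOn (fun x => x / p)
      · intro x hx
        have hx' := mem_filter.1 (mem_filter.1 (mem_coe.1 hx)).1
        rw [mem_range] at hx'
        rw [mem_coe, mem_range]
        apply Nat.div_lt_of_lt_mul
        rw [← sq]
        exact hx'.1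
      · intro x hx x' hx' h
        have h1 := (mem_filter.1 (mem_coe.1 hx)).2
        have h2 := (mem_filter.1 (mem_coe.1 hx')).2
        simp only at h h1 h2
        have e1 := Nat.mod_add_div x p
        have e2 := Nat.mod_add_div x' p
        rw [h1, h] at e1
        rw [h2] at e2
        omega
    rwa [card_range] at h1

lemma nat_half {n p : ℕ} (h : (n : ℝ) ≤ p / 2) : n ≤ p / 2 := by
  rw [Nat.le_div_iff_mul_le (by norm_num)]
  have h1 : (n : ℝ) * 2 ≤ p := by linarith
  exact_mod_cast h1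

lemma card_W4 {p : ℕ} (hp : p.Prime) (hp2 : p ≠ 2) (σ : Fin 3 × Bool) :
    ((W4 σ p).card : ℝ) ≤ (p : ℝ) ^ 3 / 2 := by
  classical
  have hpi := Nat.prime_iff_prime_int.1 hp
  have key : (W4 σ p).card ≤ (p / 2) * p ^ 2 := by
    obtain ⟨j, b⟩ := σ
    have hfst : ∀ (x : ℕ × ℕ), x ∈ W4 (j, b) p → st4 ((x.1 : ℤ), (x.2 : ℤ)) p = (j, b) :=
      fun x hx => (mem_filter.1 hx).2.2.2
    fin_cases j
    · -- `p ∣ c`
      refine (card_le_mul_card_image_of_maps_to (f := fun x : ℕ × ℕ => x.1) (t := mult p)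
        ?_ (p * (p / 2)) ?_).trans ?_
      · intro x hx
        have h1 := mem_filter.1 hx
        have h2 := hfst x hx
        rw [mem_product] at h1
        unfold mult
        rw [mem_filter]
        refine ⟨h1.1.1, ?_⟩
        by_contra hcon
        have h3 : ¬ (p : ℤ) ∣ (x.1 : ℤ) := by exact_mod_cast hcon
        unfold st4 at h2
        rw [if_neg h3] at h2
        split_ifs at h2 <;> simp at h2
      · intro r _
        refine le_trans ?_ (card_unit hp hp2 b)
        apply card_le_card_of_injOn (fun x => x.2)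
        · intro x hx
          obtain ⟨hx1, hx2⟩ := mem_filter.1 (mem_coe.1 hx)
          have h1 := mem_filter.1 hx1
          have h2 := hfst x hx1
          rw [mem_product] at h1
          rw [mem_coe, mem_filter]
          unfold st4 at h2
          have h3 : (p : ℤ) ∣ (x.1 : ℤ) := by
            by_contra h3
            rw [if_neg h3] at h2
            split_ifs at h2 <;> simp at h2
          rw [if_pos h3] at h2
          refine ⟨h1.1.2, ?_, (Prod.mk.inj h2).2⟩
          intro h4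
          apply h1.2.2.1
          unfold f4
          simp only
          rw [sq]
          exact (mul_dvd_mul h3 h4).mul_right _
        · intro x hx x' hx' h
          have h1 := (mem_filter.1 (mem_coe.1 hx)).2
          have h2 := (mem_filter.1 (mem_coe.1 hx')).2
          exact Prod.ext (h1.trans h2.symm) h
      · calc p * (p / 2) * (mult p).card ≤ p * (p / 2) * p := Nat.mul_le_mul_left _ (card_mult hp)
          _ = (p / 2) * p ^ 2 := by ring
    · -- `p ∣ b`
      refine (card_le_mul_card_image_of_maps_to (f := fun x : ℕ × ℕ => x.1) (t := range (p ^ 2))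
        ?_ (p / 2) ?_).trans (le_of_eq (by rw [card_range]))
      · intro x hx
        have h1 := mem_filter.1 hx
        rw [mem_product] at h1
        exact h1.1.1
      · intro r _
        refine le_trans ?_ (nat_half (card_half (X : ℤ[X]) hp hp2 0 b (by simp) (by
          rw [derivative_X, eval_one]
          intro h
          exact hpi.not_isUnit (isUnit_of_dvd_one h))))
        apply card_le_card_of_injOn (fun x => x.2)
        · intro x hx
          obtain ⟨hx1, hx2⟩ := mem_filter.1 (mem_coe.1 hx)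
          have h1 := mem_filter.1 hx1
          have h2 := hfst x hx1
          rw [mem_product] at h1
          rw [mem_coe, mem_filter, eval_X]
          unfold st4 at h2
          have h3 : ¬ (p : ℤ) ∣ (x.1 : ℤ) := by
            intro h3
            rw [if_pos h3] at h2
            simp at h2
          rw [if_neg h3] at h2
          have h4 : (p : ℤ) ∣ (x.2 : ℤ) := by
            by_contra h4
            rw [if_neg h4] at h2
            simp at h2
          rw [if_pos h4] at h2
          have h5 : p ∣ x.2 := by exact_mod_cast h4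
          refine ⟨h1.1.2, Nat.mod_eq_zero_of_dvd h5, ?_, (Prod.mk.inj h2).2⟩
          intro h6
          apply h1.2.2.1
          unfold f4
          simp only
          exact (h6.mul_left _).mul_right _
        · intro x hx x' hx' h
          have h1 := (mem_filter.1 (mem_coe.1 hx)).2
          have h2 := (mem_filter.1 (mem_coe.1 hx')).2
          exact Prod.ext (h1.trans h2.symm) h
    · -- `p ∣ c ^ 2 - 4 b`
      refine (card_le_mul_card_image_of_maps_to (f := fun x : ℕ × ℕ => x.1) (t := range (p ^ 2))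
        ?_ (p / 2) ?_).trans (le_of_eq (by rw [card_range]))
      · intro x hx
        have h1 := mem_filter.1 hx
        rw [mem_product] at h1
        exact h1.1.1
      · intro r _
        set F : Finset (ℕ × ℕ) := (W4 ((2 : Fin 3), b) p).filter (fun x => x.1 = r) with hF
        show F.card ≤ p / 2
        rcases F.eq_empty_or_nonempty with hE | ⟨x0, hx0⟩
        · rw [hE, card_empty]
          exact Nat.zero_le _
        set P : ℤ[X] := C ((r : ℤ) ^ 2) - C 4 * X with hP
        have hev : ∀ y : ℤ, P.eval y = (r : ℤ) ^ 2 - 4 * y := by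
          intro y
          rw [hP, eval_sub, eval_C, eval_mul, eval_C, eval_X]
        have hfac : ∀ x ∈ F, x.1 = r ∧ (p : ℤ) ∣ (r : ℤ) ^ 2 - 4 * (x.2 : ℤ) ∧
            ¬ (p : ℤ) ^ 2 ∣ (r : ℤ) ^ 2 - 4 * (x.2 : ℤ) ∧
            sg0 p (((r : ℤ) ^ 2 - 4 * (x.2 : ℤ)) / p) = b ∧ x.2 ∈ range (p ^ 2) := by
          intro x hx
          obtain ⟨hx1, hx2⟩ := mem_filter.1 hx
          have h1 := mem_filter.1 hx1
          have h2 := hfst x hx1
          rw [mem_product] at h1
          unfold st4 at h2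
          have h3 : ¬ (p : ℤ) ∣ (x.1 : ℤ) := by
            intro h3
            rw [if_pos h3] at h2
            simp at h2
          rw [if_neg h3] at h2
          have h4 : ¬ (p : ℤ) ∣ (x.2 : ℤ) := by
            intro h4
            rw [if_pos h4] at h2
            simp at h2
          rw [if_neg h4] at h2
          have h5 := h1.2.1
          have h6 := h1.2.2.1
          unfold f4 at h5 h6
          simp only at h5 h6
          have hxy : ¬ (p : ℤ) ∣ (x.1 : ℤ) * (x.2 : ℤ) := by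
            intro h
            rcases hpi.dvd_or_dvd h with h6 | h6
            · exact h3 h6
            · exact h4 h6
          rw [hx2] at h5 h6 h2 hxy
          refine ⟨hx2, (hpi.dvd_or_dvd h5).resolve_left hxy, fun h => h6 (h.mul_left _),
            (Prod.mk.inj h2).2, h1.1.2⟩
        refine le_trans ?_ (nat_half (card_half P hp hp2 (x0.2 % p) b ?_ ?_))
        · apply card_le_card_of_injOn (fun x => x.2)
          · intro x hx
            obtain ⟨h1, h2, h3, h4, h5⟩ := hfac x (mem_coe.1 hx)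
            obtain ⟨-, h2', -, -, -⟩ := hfac x0 hx0
            rw [mem_coe, mem_filter, hev]
            refine ⟨h5, ?_, h3, h4⟩
            have h6 : (p : ℤ) ∣ 4 * ((x0.2 : ℤ) - x.2) := by
              have e := dvd_sub h2 h2'
              have e2 : (r : ℤ) ^ 2 - 4 * (x.2 : ℤ) - ((r : ℤ) ^ 2 - 4 * (x0.2 : ℤ)) =
                  4 * ((x0.2 : ℤ) - x.2) := by ring
              rwa [e2] at e
            have hc : IsCoprime (p : ℤ) 4 := by
              have : Nat.Coprime p 4 := by
                have h5 : Nat.Coprime p (2 ^ 2) :=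
                  (Nat.coprime_two_right.2 (hp.odd_of_ne_two hp2)).pow_right 2
                simpa using h5
              exact_mod_cast Nat.isCoprime_iff_coprime.2 this
            have h7 := hc.dvd_of_dvd_mul_left h6
            exact (Nat.modEq_iff_dvd).2 h7
          · intro x hx x' hx' h
            exact Prod.ext ((hfac x (mem_coe.1 hx)).1.trans (hfac x' (mem_coe.1 hx')).1.symm) h
        · obtain ⟨-, h2', -, -, -⟩ := hfac x0 hx0
          have e1 := mod_dvd x0.2 p
          rw [hev]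
          have e : (r : ℤ) ^ 2 - 4 * ((x0.2 % p : ℕ) : ℤ) = ((r : ℤ) ^ 2 - 4 * (x0.2 : ℤ)) +
              4 * ((x0.2 : ℤ) - ((x0.2 % p : ℕ) : ℤ)) := by ring
          rw [e]
          exact dvd_add h2' (e1.mul_left _)
        · have hder : (derivative P).eval ((x0.2 % p : ℕ) : ℤ) = -4 := by
            rw [hP, derivative_sub, derivative_C, derivative_C_mul, derivative_X, mul_one, zero_sub,
              eval_neg, eval_C]
          rw [hder]
          intro h
          rw [dvd_neg] at h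
          have h5 : (p : ℤ) ∣ 2 ^ 2 := by
            norm_num
            exact h
          have h6 := hpi.dvd_of_dvd_pow h5
          have h7 : p ∣ 2 := by exact_mod_cast h6
          exact hp2 ((Nat.prime_dvd_prime_iff_eq hp Nat.prime_two).1 h7)
  have h1 : ((W4 σ p).card : ℝ) ≤ (((p / 2) * p ^ 2 : ℕ) : ℝ) := by exact_mod_cast key
  refine h1.trans ?_
  push_cast
  have h2 : (((p / 2 : ℕ)) : ℝ) ≤ p / 2 := Nat.cast_div_le
  have h3 : (0 : ℝ) ≤ (p : ℝ) ^ 2 := by positivity
  nlinarith [mul_le_mul_of_nonneg_right h2 h3]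

end Pool.Agent.L0h80.T4
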